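import Pool.Agent.H73.PHS.Final

/-!
# Domains with holes: holes which are sets of uniqueness

The hypothesis of board PHS that the hole has nonempty interior is replaced by the hypothesis that it
lies in the zero set of no holomorphic function on the filled domain, except zero.  The proofs are
those of the rows HFC (helper1), EXF, NDE (helper81), RNG (helper1), PRP (helper71), ITR (helper55),
MAI (helper97) of board PHS.
-/

set_option autoImplicit false

open Set Filter Topology MeasureTheory Metric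

namespace Pool.PHT

open Pool.PHS

/-- `D` is a bounded domain whose complement is the disjoint union of the connected closed set `E`
and of the nonempty compact set `K` -/
structure Hole {n : ℕ} (D E K : Set (Cn n)) : Prop where
  open_D : IsOpen D
  conn_D : IsConnected D
  bdd_D : Bornology.IsBounded D
  closed_E : IsClosed E
  conn_E : IsPreconnected E
  comp_K : IsCompact K
  ne_K : K.Nonempty
  disj : Disjoint E K
  compl : Dᶜ = E ∪ K

def HFCStmt : Prop :=
  ∀ n : ℕ, 1 ≤ n → ∀ D E K : Set (Cn n), Hole D E K →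
    IsOpen (D ∪ K) ∧ Bornology.IsBounded (D ∪ K) ∧ IsConnected (D ∪ K) ∧ (D ∪ K)ᶜ = E ∧
      ¬ Bornology.IsBounded E ∧ E.Nonempty ∧ ∀ δ > 0, ∃ w ∈ D, infDist w E < δ

def EXFStmt : Prop :=
  ∀ n : ℕ, 2 ≤ n → ∀ (D E K : Set (Cn n)) (f : Cn n → Cn n), Hole D E K →
    DifferentiableOn ℂ f D →
    ∃ F : Cn n → Cn n, DifferentiableOn ℂ F (D ∪ K) ∧ EqOn F f D

def NDEStmt : Prop :=
  ∀ n : ℕ, 1 ≤ n → ∀ (D E K : Set (Cn n)) (f F : Cn n → Cn n), Hole D E K → ProperSelf D f →
    DifferentiableOn ℂ F (D ∪ K) → EqOn F f D → NonDeg F (D ∪ K)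

def RNGStmt : Prop :=
  ∀ n : ℕ, 1 ≤ n → ∀ (D E K : Set (Cn n)) (f F : Cn n → Cn n), Hole D E K → ProperSelf D f →
    DifferentiableOn ℂ F (D ∪ K) → EqOn F f D → MapsTo F (D ∪ K) (D ∪ K)

def PRPStmt : Prop :=
  ∀ n : ℕ, 2 ≤ n → ∀ (D E K : Set (Cn n)) (f F : Cn n → Cn n), Hole D E K → ProperSelf D f →
    DifferentiableOn ℂ F (D ∪ K) → EqOn F f D → MapsTo F (D ∪ K) (D ∪ K) → D ⊆ f '' D →
    ∀ w ∈ D ∪ K, ∃ ρ > 0, IsCompact {z | z ∈ D ∪ K ∧ ‖F z - w‖ ≤ ρ}

/-! ### Pool/Agent/H1/PHS/HFC.lean -/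

theorem hfc_conn {n : ℕ} {D K : Set (Cn n)} (hD : IsConnected D) (hK : IsClosed K)
    (hDK : Disjoint D K) (hopen : IsOpen (D ∪ K)) : IsPreconnected (D ∪ K) := by
  have key : ∀ u v : Set (Cn n), IsOpen u → IsOpen v → D ∪ K ⊆ u ∪ v →
      (D ∪ K) ∩ (u ∩ v) = ∅ → D ⊆ u → D ∪ K ⊆ u := by
    intro u v hu hv huv hdis hDu
    have hVK : (D ∪ K) ∩ v ⊆ K := by
      rintro z ⟨hz | hz, hzv⟩
      · exfalso
        have : z ∈ (D ∪ K) ∩ (u ∩ v) := ⟨Or.inl hz, hDu hz, hzv⟩
        rw [hdis] at this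
        exact this
      · exact hz
    have hcl : IsClopen ((D ∪ K) ∩ v) := by
      refine ⟨?_, hopen.inter hv⟩
      rw [← closure_subset_iff_isClosed]
      intro z hz
      have hzK : z ∈ K := closure_minimal hVK hK hz
      rcases huv (Or.inr hzK) with h | h
      · exfalso
        obtain ⟨y, hy1, hy2⟩ := mem_closure_iff.1 hz (u ∩ (D ∪ K)) (hu.inter hopen)
          ⟨h, Or.inr hzK⟩
        have : y ∈ (D ∪ K) ∩ (u ∩ v) := ⟨hy2.1, hy1.1, hy2.2⟩
        rw [hdis] at this
        exact this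
      · exact ⟨Or.inr hzK, h⟩
    rcases isClopen_iff.1 hcl with h | h
    · intro z hz
      rcases huv hz with h1 | h1
      · exact h1
      · exfalso
        have : z ∈ (D ∪ K) ∩ v := ⟨hz, h1⟩
        rw [h] at this
        exact this
    · exfalso
      obtain ⟨z, hz⟩ := hD.nonempty
      have h1 : z ∈ (D ∪ K) ∩ v := by rw [h]; trivial
      exact Set.disjoint_left.1 hDK hz (hVK h1)
  rw [isPreconnected_iff_subset_of_disjoint]
  intro u v hu hv huv hdis
  have h1 := isPreconnected_iff_subset_of_disjoint.1 hD.isPreconnected u v hu hv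
    (Set.subset_union_left.trans huv) (by
      rw [Set.eq_empty_iff_forall_notMem] at hdis ⊢
      exact fun z hz => hdis z ⟨Or.inl hz.1, hz.2⟩)
  rcases h1 with h1 | h1
  · exact Or.inl (key u v hu hv huv hdis h1)
  · exact Or.inr (key v u hv hu (by rwa [Set.union_comm v u]) (by rwa [Set.inter_comm v u]) h1)

theorem hfc_thm : HFCStmt := by
  intro n hn D E K hH
  haveI : Nonempty (Fin n) := ⟨⟨0, by omega⟩⟩
  have hDK : Disjoint D K := by
    rw [Set.disjoint_left]
    intro z hzD hzK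
    have : z ∈ Dᶜ := by rw [hH.compl]; exact Or.inr hzK
    exact this hzD
  have hDE : Disjoint D E := by
    rw [Set.disjoint_left]
    intro z hzD hzE
    have : z ∈ Dᶜ := by rw [hH.compl]; exact Or.inl hzE
    exact this hzD
  have hcompl : (D ∪ K)ᶜ = E := by
    ext z
    constructor
    · intro hz
      have h1 : z ∈ Dᶜ := fun h => hz (Or.inl h)
      rw [hH.compl] at h1
      rcases h1 with h1 | h1
      · exact h1
      · exact absurd (Or.inr h1) hz
    · intro hz h
      rcases h with h | h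
      · exact Set.disjoint_left.1 hDE h hz
      · exact Set.disjoint_left.1 hH.disj hz h
  have hopen : IsOpen (D ∪ K) := by
    rw [← isClosed_compl_iff, hcompl]
    exact hH.closed_E
  have hbdd : Bornology.IsBounded (D ∪ K) := hH.bdd_D.union hH.comp_K.isBounded
  have hunb : ¬ Bornology.IsBounded E := by
    intro h
    have h1 : Bornology.IsBounded (univ : Set (Cn n)) := by
      rw [← Set.union_compl_self (D ∪ K), hcompl]
      exact hbdd.union h
    exact NormedSpace.unbounded_univ ℂ (Cn n) h1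
  have hne : E.Nonempty := by
    rw [Set.nonempty_iff_ne_empty]
    intro h
    exact hunb (h ▸ Bornology.isBounded_empty)
  refine ⟨hopen, hbdd, ⟨hH.conn_D.nonempty.mono Set.subset_union_left,
    hfc_conn hH.conn_D hH.comp_K.isClosed hDK hopen⟩, hcompl, hunb, hne, ?_⟩
  intro δ hδ
  by_contra hcon
  push Not at hcon
  have hKne : K.Nonempty := hH.ne_K
  obtain ⟨k, hk, hmin⟩ := hH.comp_K.exists_isMinOn hKne
    (continuous_infDist_pt E).continuousOn
  have hkE : 0 < infDist k E := by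
    rw [← hH.closed_E.notMem_iff_infDist_pos hne]
    exact fun h => Set.disjoint_left.1 hH.disj h hk
  have hopE : thickening (min δ (infDist k E)) E = E := by
    refine Set.Subset.antisymm ?_ (self_subset_thickening (lt_min hδ hkE) E)
    intro z hz
    rw [mem_thickening_iff_infDist_lt hne] at hz
    by_contra hzE
    have hz' : z ∈ D ∪ K := by
      by_contra h
      have : z ∈ (D ∪ K)ᶜ := h
      rw [hcompl] at this
      exact hzE this
    rcases hz' with h | h
    · exact absurd (hz.trans_le (min_le_left _ _)) (not_lt.2 (hcon z h))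
    · exact absurd (hz.trans_le (min_le_right _ _)) (not_lt.2 (hmin h))
  have hclopen : IsClopen E := ⟨hH.closed_E, hopE ▸ isOpen_thickening⟩
  rcases isClopen_iff.1 hclopen with h | h
  · exact hne.ne_empty h
  · obtain ⟨z, hz⟩ := hH.conn_D.nonempty
    exact Set.disjoint_left.1 hDE hz (h ▸ Set.mem_univ z)

/-! ### Pool/Agent/H73/PHS/Exf.lean -/

theorem EXF_thm (hEXT : EXTStmt) (hIDN : IDNStmt) (hHFC : HFCStmt) : EXFStmt := by
  intro n hn D E K f hH hf
  obtain ⟨hΩo, hΩb, hΩc, hΩE, hEu, hEne, hnear⟩ := hHFC n (by omega) D E K hH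
  have hDK : (D ∪ K) \ K = D := by
    have : Disjoint D K := by
      rw [Set.disjoint_left]
      intro x hxD hxK
      have : x ∈ Dᶜ := by rw [hH.compl]; exact Or.inr hxK
      exact this hxD
    rw [Set.union_sdiff_right]
    exact this.sdiff_eq_left
  have key : ∀ i : Fin n, ∃ F : Cn n → ℂ, DifferentiableOn ℂ F (D ∪ K) ∧ EqOn F (fun z => f z i) D := by
    intro i
    have hg : DifferentiableOn ℂ (fun z => f z i) ((D ∪ K) \ K) := by
      rw [hDK]
      exact (differentiableOn_pi.1 hf) i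
    obtain ⟨F, ε, hε, hF, hFg⟩ := hEXT n hn (D ∪ K) K (fun z => f z i) hΩo hΩb
      (by rw [hΩE]; exact hH.conn_E) hH.comp_K subset_union_right hg
    refine ⟨F, hF, ?_⟩
    obtain ⟨w, hwD, hw⟩ := hnear ε hε
    refine hIDN n F (fun z => f z i) D {z | z ∈ D ∧ infDist z E < ε} hH.open_D hH.conn_D.isPreconnected
      (hF.mono subset_union_left) ((differentiableOn_pi.1 hf) i) ?_ (fun z hz => hz.1) ⟨w, hwD, hw⟩ ?_
    · exact hH.open_D.inter (isOpen_lt (continuous_infDist_pt E) continuous_const)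
    · intro z hz
      exact (hFg z (Or.inl hz.1) (by rw [hΩE]; exact hz.2)).2
  choose F hF1 hF2 using key
  refine ⟨fun z i => F i z, differentiableOn_pi.2 hF1, ?_⟩
  intro z hz
  funext i
  exact hF2 i hz

/-! ### Pool/Agent/H81/PHS/NDE.lean -/

theorem NDE_thm (h1 : DETStmt) (h2 : IDNStmt) (h3 : HFCStmt) (h4 : NDGStmt) : NDEStmt := by
  intro n hn D E K f F hH hf hF hEq O hO hOU hOne
  by_contra hcon
  have hz0 : ∀ z ∈ O, jac F z = 0 := fun z hz => by
    by_contra h
    exact hcon ⟨z, hz, h⟩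
  obtain ⟨hop, -, hcn, -⟩ := h3 n hn D E K hH
  have h5 : EqOn (jac F) (fun _ => 0) (D ∪ K) :=
    h2 n (jac F) (fun _ => 0) (D ∪ K) O hop hcn.isPreconnected (h1 n F (D ∪ K) hop hF)
      (differentiableOn_const 0) hO hOU hOne (fun z hz => hz0 z hz)
  obtain ⟨z, hz, hne⟩ :=
    h4 n D f hH.open_D hH.conn_D hf D hH.open_D subset_rfl hH.conn_D.nonempty
  apply hne
  have h6 : F =ᶠ[𝓝 z] f := by
    filter_upwards [hH.open_D.mem_nhds hz] with y hy using hEq hy
  have h7 : jac f z = jac F z := by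
    unfold jac
    rw [h6.fderiv_eq]
  rw [h7]
  exact h5 (Or.inl hz)

/-! ### Pool/Agent/H1/PHS/RNG.lean -/

theorem rng_thm (hOPN : OPNStmt) (hHFC : HFCStmt) (hNDE : NDEStmt) : RNGStmt := by
  intro n hn D E K f F hH hf hF hFf
  obtain ⟨hopen, hbdd, hconn, hcompl, hunb, hne, -⟩ := hHFC n hn D E K hH
  have hnd := hNDE n hn D E K f F hH hf hF hFf
  obtain ⟨L, hL, hKL, hLΩ⟩ := exists_compact_between hH.comp_K hopen Set.subset_union_right
  have hUΩ : interior L ⊆ D ∪ K := interior_subset.trans hLΩ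
  have hFL : ContinuousOn F L := (hF.mono hLΩ).continuousOn
  have hsub : E ∩ F '' (interior L) = ∅ := by
    by_contra hcon
    have h1 := hOPN n (interior L) E F isOpen_interior (hF.mono hUΩ)
      (fun O hO hOU hOn => hnd O hO (hOU.trans hUΩ) hOn) hH.conn_E (by
        intro w hw
        have hC : IsCompact (L \ interior L) := hL.diff isOpen_interior
        have hCD : L \ interior L ⊆ D := by
          rintro z ⟨hz1, hz2⟩
          rcases hLΩ hz1 with h | h
          · exact h
          · exact absurd (hKL h) hz2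
        have hFC : IsCompact (F '' (L \ interior L)) :=
          hC.image_of_continuousOn (hFL.mono Set.sdiff_subset)
        have hw' : w ∈ (F '' (L \ interior L))ᶜ := by
          rintro ⟨z, hz, rfl⟩
          rw [hFf (hCD hz)] at hw
          have h2 : f z ∈ D := hf.maps (hCD hz)
          rw [← hcompl] at hw
          exact hw (Or.inl h2)
        obtain ⟨ε, hε, hball⟩ := Metric.isOpen_iff.1 hFC.isClosed.isOpen_compl w hw'
        refine ⟨ε / 2, by linarith, ?_⟩
        have heq : {z | z ∈ interior L ∧ ‖F z - w‖ ≤ ε / 2} = L ∩ F ⁻¹' closedBall w (ε / 2) := by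
          ext z
          constructor
          · rintro ⟨h2, h3⟩
            refine ⟨interior_subset h2, ?_⟩
            rw [Set.mem_preimage, mem_closedBall, dist_eq_norm]
            exact h3
          · rintro ⟨h2, h3⟩
            rw [Set.mem_preimage, mem_closedBall, dist_eq_norm] at h3
            refine ⟨?_, h3⟩
            by_contra h4
            have h5 : F z ∈ ball w ε := by
              rw [mem_ball, dist_eq_norm]
              linarith
            exact hball h5 ⟨z, ⟨h2, h4⟩, rfl⟩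
        rw [heq]
        exact hL.of_isClosed_subset (hFL.preimage_isClosed_of_isClosed hL.isClosed
          isClosed_closedBall) Set.inter_subset_left)
      (Set.nonempty_iff_ne_empty.2 hcon)
    apply hunb
    refine (hL.image_of_continuousOn hFL).isBounded.subset ?_
    exact h1.trans (Set.image_mono interior_subset)
  intro z hz
  rcases hz with hz | hz
  · rw [hFf hz]
    exact Or.inl (hf.maps hz)
  · by_contra h
    have h1 : F z ∈ (D ∪ K)ᶜ := h
    rw [hcompl] at h1
    have h2 : F z ∈ E ∩ F '' (interior L) := ⟨h1, z, hKL hz, rfl⟩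
    rw [hsub] at h2
    exact h2

/-! ### Pool/Agent/H71/PHS/PRP.lean -/

theorem PRP_thm (hCLM : CLMStmt) (hHFC : HFCStmt) : PRPStmt := by
  intro n hn D E K f F hH hf hF hFf hmap hsurj
  obtain ⟨hΩo, hΩb, hΩc, hΩE, _, hEne, hnear⟩ := hHFC n (by omega) D E K hH
  have hcE : IsClosed E := hH.closed_E
  have hFc : ContinuousOn F (D ∪ K) := hF.continuousOn
  -- points at positive distance from `E`
  have hpos : ∀ ε : ℝ, 0 < ε → ∀ z, ε ≤ infDist z E → z ∈ D ∪ K := by
    intro ε hε z hz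
    by_contra hcon
    have h1 : z ∈ (D ∪ K)ᶜ := hcon
    rw [hΩE] at h1
    rw [infDist_zero_of_mem h1] at hz
    linarith
  have hcpt : ∀ ε : ℝ, 0 < ε → IsCompact {z | ε ≤ infDist z E} := by
    intro ε hε
    apply Metric.isCompact_of_isClosed_isBounded
    · exact isClosed_le continuous_const (continuous_infDist_pt E)
    · exact hΩb.subset (fun z hz => hpos ε hε z hz)
  have hnotE : ∀ z ∈ D ∪ K, z ∉ E := by
    intro z hz hzE
    rw [← hΩE] at hzE
    exact hzE hz
  -- a compact subset of `Ω` has positive distance from `E`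
  have hdist : ∀ L : Set (Cn n), IsCompact L → L ⊆ D ∪ K → ∃ η : ℝ, 0 < η ∧ ∀ z ∈ L, η ≤ infDist z E := by
    intro L hL hLΩ
    have h1 : Disjoint L E := by
      rw [Set.disjoint_left]
      intro z hz
      exact hnotE z (hLΩ hz)
    obtain ⟨δ, hδ, hd⟩ := h1.exists_thickenings hL hcE
    refine ⟨δ, hδ, fun z hz => ?_⟩
    by_contra hlt
    push Not at hlt
    have h2 : z ∈ thickening δ E := (mem_thickening_iff_infDist_lt hEne).2 hlt
    have h3 : z ∈ thickening δ L := self_subset_thickening hδ L hz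
    exact Set.disjoint_left.1 hd h3 h2
  obtain ⟨s, hs, hsd⟩ := hH.disj.symm.exists_thickenings hH.comp_K hcE
  -- the compact sets
  have hL : ∀ t : ℝ, 0 < t → ∃ L : Set (Cn n), IsCompact L ∧ L ⊆ D ∪ K ∧
      ∀ z ∈ D ∪ K, z ∉ L → F z ∈ thickening t E ∪ thickening t K := by
    intro t ht
    have hQD : (thickening t E ∪ thickening t K)ᶜ ⊆ D := by
      intro z hz
      by_contra hcon
      have h1 : z ∈ Dᶜ := hcon
      rw [hH.compl] at h1
      rcases h1 with h1 | h1
      · exact hz (Or.inl (self_subset_thickening ht E h1))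
      · exact hz (Or.inr (self_subset_thickening ht K h1))
    have hQc : IsCompact (thickening t E ∪ thickening t K)ᶜ := by
      apply Metric.isCompact_of_isClosed_isBounded
      · exact (isOpen_thickening.union isOpen_thickening).isClosed_compl
      · exact hH.bdd_D.subset hQD
    refine ⟨K ∪ (D ∩ f ⁻¹' (thickening t E ∪ thickening t K)ᶜ),
      hH.comp_K.union (hf.proper _ hQD hQc), ?_, ?_⟩
    · rintro z (hz | hz)
      · exact Or.inr hz
      · exact Or.inl hz.1
    · intro z hz hzL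
      have hzK : z ∉ K := fun h => hzL (Or.inl h)
      have hzD : z ∈ D := hz.resolve_right hzK
      by_contra hcon
      apply hzL
      right
      refine ⟨hzD, ?_⟩
      show f z ∈ (thickening t E ∪ thickening t K)ᶜ
      rw [← hFf hzD]
      exact hcon
  obtain ⟨L, hLc, hLΩ, hLm⟩ := hL s hs
  have hdis : ∀ y, y ∈ thickening s E → y ∈ thickening s K → False := by
    intro y h1 h2
    exact Set.disjoint_left.1 hsd h2 h1
  obtain ⟨ε, hε, hcase⟩ := hCLM n hn (D ∪ K) L ((D ∪ K) ∩ F ⁻¹' thickening s E)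
    ((D ∪ K) ∩ F ⁻¹' thickening s K) hΩo hΩb hΩc.isPreconnected
    (by rw [hΩE]; exact hH.conn_E) hLc hLΩ
    (hFc.isOpen_inter_preimage hΩo isOpen_thickening)
    (hFc.isOpen_inter_preimage hΩo isOpen_thickening)
    (by
      rw [Set.disjoint_left]
      intro z h1 h2
      exact hdis _ h1.2 h2.2)
    (by
      intro z hz
      rcases hLm z hz.1 hz.2 with h | h
      · exact Or.inl ⟨hz.1, h⟩
      · exact Or.inr ⟨hz.1, h⟩)
  rw [hΩE] at hcase
  rcases hcase with hA | hB
  · -- near `E` all values are near `E`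
    intro w hw
    have hw0 : 0 < infDist w E := by
      rcases lt_or_eq_of_le (infDist_nonneg (x := w) (s := E)) with h | h
      · exact h
      · exact absurd ((hcE.mem_iff_infDist_zero hEne).2 h.symm) (hnotE w hw)
    set ρ : ℝ := infDist w E / 2 with hρ
    have hρ0 : 0 < ρ := by positivity
    obtain ⟨L', hL'c, hL'Ω, hL'm⟩ := hL (min s (ρ / 2)) (by positivity)
    obtain ⟨η, hη, hη'⟩ := hdist L' hL'c hL'Ω
    have hm0 : 0 < min ε η := by positivity
    refine ⟨ρ, hρ0, ?_⟩
    have hsub : {z | z ∈ D ∪ K ∧ ‖F z - w‖ ≤ ρ} =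
        {z | min ε η ≤ infDist z E} ∩ F ⁻¹' closedBall w ρ := by
      ext z
      constructor
      · rintro ⟨hz, hzw⟩
        refine ⟨?_, ?_⟩
        · show min ε η ≤ infDist z E
          by_contra hlt
          push Not at hlt
          have h1 : infDist z E < ε := lt_of_lt_of_le hlt (min_le_left _ _)
          have h2 : infDist z E < η := lt_of_lt_of_le hlt (min_le_right _ _)
          have h3 := (hA z hz h1).2
          have h4 : z ∉ L' := fun h => absurd (hη' z h) (not_le.2 h2)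
          have h5 : F z ∈ thickening (min s (ρ / 2)) E := by
            rcases hL'm z hz h4 with h | h
            · exact h
            · exact (hdis _ h3 (thickening_mono (min_le_left _ _) K h)).elim
          have h6 : infDist (F z) E < min s (ρ / 2) :=
            (mem_thickening_iff_infDist_lt hEne).1 h5
          have h7 : infDist (F z) E < ρ / 2 := lt_of_lt_of_le h6 (min_le_right _ _)
          have h8 : infDist w E ≤ infDist (F z) E + dist w (F z) := infDist_le_infDist_add_dist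
          rw [dist_comm, dist_eq_norm] at h8
          linarith
        · show F z ∈ closedBall w ρ
          rw [mem_closedBall, dist_eq_norm]
          exact hzw
      · rintro ⟨hz, hzw⟩
        refine ⟨hpos _ hm0 z hz, ?_⟩
        rw [← dist_eq_norm]
        exact hzw
    rw [hsub]
    have hM := hcpt (min ε η) hm0
    have hcl : IsClosed ({z | min ε η ≤ infDist z E} ∩ F ⁻¹' closedBall w ρ) :=
      (hFc.mono (fun z hz => hpos _ hm0 z hz)).preimage_isClosed_of_isClosed hM.isClosed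
        isClosed_closedBall
    exact hM.of_isClosed_subset hcl Set.inter_subset_left
  · -- near `E` all values are near `K`: impossible
    exfalso
    have hM := hcpt ε hε
    have hMF : IsCompact (F '' {z | ε ≤ infDist z E}) :=
      hM.image_of_continuousOn (hFc.mono (fun z hz => hpos _ hε z hz))
    obtain ⟨η, hη, hη'⟩ := hdist _ hMF (by
      rintro _ ⟨z, hz, rfl⟩
      exact hmap (hpos _ hε z hz))
    obtain ⟨w, hwD, hw⟩ := hnear (min s η) (by positivity)
    obtain ⟨z, hzD, hzw⟩ := hsurj hwD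
    have hFz : F z = w := by rw [hFf hzD]; exact hzw
    have hzΩ : z ∈ D ∪ K := Or.inl hzD
    have h1 : infDist z E < ε := by
      by_contra hcon
      push Not at hcon
      have h2 := hη' (F z) ⟨z, hcon, rfl⟩
      rw [hFz] at h2
      exact absurd (lt_of_lt_of_le hw (min_le_right _ _)) (not_lt.2 h2)
    have h3 := (hB z hzΩ h1).2
    have h4 : F z ∈ thickening s E := by
      rw [hFz]
      exact (mem_thickening_iff_infDist_lt hEne).2 (lt_of_lt_of_le hw (min_le_left _ _))
    exact hdis _ h4 h3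

theorem itr_uniq (h2 : IT1Stmt) : ∀ (n : ℕ) (Ω K : Set (Cn n)) (F : Cn n → Cn n), IsOpen Ω →
    Bornology.IsBounded Ω → MapsTo F Ω Ω → DifferentiableOn ℂ F Ω → Ω ⊆ F '' Ω →
    IsCompact K → K ⊆ Ω →
    (∀ u : Cn n → ℂ, DifferentiableOn ℂ u Ω → (∀ z ∈ K, u z = 0) → ∀ z ∈ Ω, u z = 0) →
    (∀ z ∈ Ω, F z ∈ K → z ∈ K) →
    ∃ g : Cn n → Cn n, DifferentiableOn ℂ g Ω ∧ ∀ z ∈ Ω, g (F z) = z := by
  intro n Ω K F hΩo hΩb hF hFd hsur hK hKΩ hKi hback
  let l : Ultrafilter ℕ := Filter.hyperfilter ℕ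
  have hl : (l : Filter ℕ) ≤ atTop := by
    rw [← Nat.cofinite_eq_atTop]; exact Filter.hyperfilter_le_cofinite
  have hmk : ∀ k, MapsTo (F^[k]) Ω Ω := fun k => hF.iterate k
  have hit : ∀ k, DifferentiableOn ℂ (F^[k]) Ω := fun k => hFd.iterate hF k
  have hmc : ∀ k, MapsTo (F^[k]) Ω (closure Ω) := fun k z hz => subset_closure (hmk k hz)
  obtain ⟨G, hGd, hGm, hGt⟩ := h2 n Ω l (fun k => F^[k]) hΩo hΩb hit hmc
  have hH : ∀ k : ℕ, ∃ g : Cn n → Cn n, DifferentiableOn ℂ g Ω ∧ MapsTo g Ω (closure Ω) ∧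
      TendstoLocallyUniformlyOn (fun m => F^[m - k]) g l Ω := fun k =>
    h2 n Ω l (fun m => F^[m - k]) hΩo hΩb (fun m => hit _) (fun m => hmc _)
  choose Hk hHkd hHkm hHkt using hH
  obtain ⟨H, hHd, hHm, hHt⟩ := h2 n Ω l Hk hΩo hΩb hHkd hHkm
  have hP : ∀ k : ℕ, ∃ g : Cn n → Cn n, DifferentiableOn ℂ g Ω ∧ MapsTo g Ω (closure Ω) ∧
      TendstoLocallyUniformlyOn (fun m => F^[m - k - 1]) g l Ω := fun k =>
    h2 n Ω l (fun m => F^[m - k - 1]) hΩo hΩb (fun m => hit _) (fun m => hmc _)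
  choose Pk hPkd hPkm hPkt using hP
  obtain ⟨P, hPd, hPm, hPt⟩ := h2 n Ω l Pk hΩo hΩb hPkd hPkm
  -- (a)
  have ha : ∀ z ∈ Ω, ∀ k, Hk k (F^[k] z) = G z := by
    intro z hz k
    have e1 : Tendsto (fun m => F^[m - k] (F^[k] z)) l (𝓝 (Hk k (F^[k] z))) :=
      (hHkt k).tendsto_at (hmk k hz)
    have e2 : Tendsto (fun m => F^[m] z) l (𝓝 (G z)) := hGt.tendsto_at hz
    refine tendsto_nhds_unique_of_eventuallyEq e1 e2 ?_
    filter_upwards [(eventually_ge_atTop k).filter_mono hl] with m hm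
    rw [← Function.iterate_add_apply, Nat.sub_add_cancel hm]
  -- (b)
  have hb : ∀ z ∈ Ω, G z ∈ Ω → H (G z) = G z := by
    intro z hz hGz
    have e1 : Tendsto (fun k => F^[k] z) l (𝓝 (G z)) := hGt.tendsto_at hz
    have e2 : Tendsto (fun k => F^[k] z) l (𝓝[Ω] (G z)) :=
      tendsto_nhdsWithin_iff.2 ⟨e1, Eventually.of_forall fun k => hmk k hz⟩
    have e3 : Tendsto (fun k => Hk k (F^[k] z)) l (𝓝 (H (G z))) :=
      hHt.tendsto_comp (hHd.continuousOn (G z) hGz) hGz e2
    have e4 : Tendsto (fun _ : ℕ => G z) l (𝓝 (H (G z))) :=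
      e3.congr (fun k => ha z hz k)
    exact (tendsto_nhds_unique e4 tendsto_const_nhds)
  -- (c)
  have hc0 : ∀ k : ℕ, ∀ w ∈ K, ∃ z ∈ K, F^[k] z = w := by
    intro k
    induction k with
    | zero => intro w hw; exact ⟨w, hw, rfl⟩
    | succ k ih =>
      intro w hw
      obtain ⟨y, hy, rfl⟩ := hsur (hKΩ hw)
      obtain ⟨z, hz, hzy⟩ := ih y (hback y hy hw)
      refine ⟨z, hz, ?_⟩
      rw [Function.iterate_succ_apply', hzy]
  have hc : ∀ w ∈ K, ∃ z ∈ K, G z = w := by
    intro w hw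
    choose zs hzs hzw using fun k => hc0 k w hw
    have hle : ((l.map zs : Ultrafilter (Cn n)) : Filter (Cn n)) ≤ 𝓟 K := by
      rw [le_principal_iff]
      exact Filter.mem_map.2 (Filter.univ_mem' hzs)
    obtain ⟨z, hz, hlz⟩ := isCompact_iff_ultrafilter_le_nhds.1 hK (l.map zs) hle
    have e1 : Tendsto zs l (𝓝 z) := hlz
    have e2 : Tendsto zs l (𝓝[Ω] z) :=
      tendsto_nhdsWithin_iff.2 ⟨e1, Eventually.of_forall fun k => hKΩ (hzs k)⟩
    have e3 : Tendsto (fun k => F^[k] (zs k)) l (𝓝 (G z)) :=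
      hGt.tendsto_comp (hGd.continuousOn z (hKΩ hz)) (hKΩ hz) e2
    have e4 : Tendsto (fun _ : ℕ => w) l (𝓝 (G z)) := e3.congr (fun k => hzw k)
    exact ⟨z, hz, tendsto_nhds_unique e4 tendsto_const_nhds⟩
  have hHK : ∀ w ∈ K, H w = w := by
    intro w hw
    obtain ⟨z, hz, hzw⟩ := hc w hw
    have := hb z (hKΩ hz) (hzw ▸ hKΩ hw)
    rwa [hzw] at this
  have hHid : ∀ z ∈ Ω, H z = z := by
    intro z hz
    ext i
    have e1 : DifferentiableOn ℂ (fun y : Cn n => H y i) Ω := by
      intro y hy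
      exact (differentiableWithinAt_pi.1 (hHd y hy)) i
    have e2 : DifferentiableOn ℂ (fun y : Cn n => y i) Ω := by
      intro y hy
      exact (differentiableWithinAt_pi.1 (differentiableWithinAt_id (x := y))) i
    have e3 := hKi (fun y => H y i - y i) (e1.sub e2)
      (fun y hy => sub_eq_zero.2 (congrFun (hHK y hy) i)) z hz
    exact sub_eq_zero.1 e3
  -- (d)
  refine ⟨P, hPd, fun z hz => ?_⟩
  have hd : ∀ k, Pk k (F z) = Hk k z := by
    intro k
    have e1 : Tendsto (fun m => F^[m - k - 1] (F z)) l (𝓝 (Pk k (F z))) :=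
      (hPkt k).tendsto_at (hF hz)
    have e2 : Tendsto (fun m => F^[m - k] z) l (𝓝 (Hk k z)) := (hHkt k).tendsto_at hz
    refine tendsto_nhds_unique_of_eventuallyEq e1 e2 ?_
    filter_upwards [(eventually_ge_atTop (k + 1)).filter_mono hl] with m hm
    have hmm : m - k = (m - k - 1) + 1 := by omega
    conv_rhs => rw [hmm]
    rw [Function.iterate_succ_apply]
  have e1 : Tendsto (fun k => Pk k (F z)) l (𝓝 (P (F z))) := hPt.tendsto_at (hF hz)
  have e2 : Tendsto (fun k => Hk k z) l (𝓝 (H z)) := hHt.tendsto_at hz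
  have e3 : P (F z) = H z := tendsto_nhds_unique_of_eventuallyEq e1 e2
    (Eventually.of_forall hd)
  rw [e3, hHid z hz]

theorem mai_uniq (hEXF : EXFStmt) (hRNG : RNGStmt) (hNDE : NDEStmt) (hSRJ : SRJStmt)
    (hPRP : PRPStmt) (hOPN : OPNStmt) (hHFC : HFCStmt) (hIT1 : IT1Stmt) :
    ∀ n : ℕ, 2 ≤ n → ∀ (D E K : Set (Cn n)) (f : Cn n → Cn n), Hole D E K →
    (∀ u : Cn n → ℂ, DifferentiableOn ℂ u (D ∪ K) → (∀ z ∈ K, u z = 0) → ∀ z ∈ D ∪ K, u z = 0) →
    ProperSelf D f →
    ∃ g : Cn n → Cn n, MapsTo g D D ∧ DifferentiableOn ℂ g D ∧ (∀ z ∈ D, g (f z) = z) ∧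
      ∀ z ∈ D, f (g z) = z := by
  intro n hn D E K f hole hU hf
  have hn1 : 1 ≤ n := by omega
  obtain ⟨F, hF, hFf⟩ := hEXF n hn D E K f hole hf.hol
  obtain ⟨hopen, hbdd, hconn, -, -, -, -⟩ := hHFC n hn1 D E K hole
  have hmaps := hRNG n hn1 D E K f F hole hf hF hFf
  have hnd := hNDE n hn1 D E K f F hole hf hF hFf
  have hsurj := hSRJ n D f hole.open_D hole.conn_D hf
  have hprp := hPRP n hn D E K f F hole hf hF hFf hmaps hsurj
  have hne : ((D ∪ K) ∩ F '' (D ∪ K)).Nonempty := by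
    obtain ⟨z, hz⟩ := hole.conn_D.nonempty
    exact ⟨F z, hmaps (Or.inl hz), ⟨z, Or.inl hz, rfl⟩⟩
  have honto := hOPN n (D ∪ K) (D ∪ K) F hopen hF hnd hconn.isPreconnected hprp hne
  have hDK : ∀ z ∈ D, z ∉ K := by
    intro z hz hzK
    have h1 : z ∈ Dᶜ := by
      rw [hole.compl]
      exact Or.inr hzK
    exact h1 hz
  have hback : ∀ z ∈ D ∪ K, F z ∈ K → z ∈ K := by
    intro z hz hFz
    rcases hz with hz | hz
    · exfalso
      rw [hFf hz] at hFz
      exact hDK _ (hf.maps hz) hFz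
    · exact hz
  obtain ⟨g, hg, hgF⟩ := itr_uniq hIT1 n (D ∪ K) K F hopen hbdd hmaps hF honto hole.comp_K
    subset_union_right hU hback
  have hgf : ∀ z ∈ D, g (f z) = z := by
    intro z hz
    rw [← hFf hz]
    exact hgF z (Or.inl hz)
  refine ⟨g, ?_, hg.mono subset_union_left, hgf, ?_⟩
  · intro w hw
    obtain ⟨z, hz, rfl⟩ := hsurj hw
    rw [hgf z hz]
    exact hz
  · intro w hw
    obtain ⟨z, hz, rfl⟩ := hsurj hw
    rw [hgf z hz]

theorem f_uniq : ∀ n : ℕ, 2 ≤ n → ∀ (D E K : Set (Cn n)) (f : Cn n → Cn n), Hole D E K →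
    (∀ u : Cn n → ℂ, DifferentiableOn ℂ u (D ∪ K) → (∀ z ∈ K, u z = 0) → ∀ z ∈ D ∪ K, u z = 0) →
    ProperSelf D f →
    ∃ g : Cn n → Cn n, MapsTo g D D ∧ DifferentiableOn ℂ g D ∧ (∀ z ∈ D, g (f z) = z) ∧
      ∀ z ∈ D, f (g z) = z := by
  have hHFC : HFCStmt := hfc_thm
  have hEXF : EXFStmt := EXF_thm f_EXT f_IDN hHFC
  have hNDE : NDEStmt := NDE_thm f_DET f_IDN hHFC f_NDG
  have hRNG : RNGStmt := rng_thm f_OPN hHFC hNDE
  have hPRP : PRPStmt := PRP_thm f_CLM hHFC
  exact mai_uniq hEXF hRNG hNDE f_SRJ hPRP f_OPN hHFC f_IT1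

end Pool.PHT
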