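import Pool.Agent.H73.LPC.Final

/-!
# Limits in the locally pseudoconvex part of the boundary

GEO of board LPC for maps whose values near the boundary are at points where `D` is locally
pseudoconvex.
-/

set_option autoImplicit false

open Set Filter Topology MeasureTheory Metric

namespace Pool.PHT

open Pool.PHS Pool.LPC

theorem geo2 {n : ℕ} {D : Set (Cn n)} {h : Cn n → Cn n} {δ : ℝ} {φ F : ℂ × ℂ → Cn n}
    (hD : IsOpen D) (hh : ProperSelf D h) (hδ : 0 < δ) (hδ1 : δ < 1)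
    (hφ : DifferentiableOn ℂ φ (BD δ)) (hF : DifferentiableOn ℂ F (BD δ))
    (hmap : MapsTo φ (HF δ) D) (heq : ∀ p ∈ HF δ, F p = h (φ p))
    (hloc : ∀ p ∈ BD δ, F p ∈ D ∨ ∃ U, IsOpen U ∧ F p ∈ U ∧ Psc (D ∩ U)) :
    ∀ z w : ℂ, ‖z‖ ≤ 1 → ‖w‖ ≤ 1 → φ (z, w) ∈ D := by
  obtain ⟨oB, cB, oH, cH, neH, sHB⟩ := f_CNN δ hδ hδ1
  obtain ⟨q, hq⟩ := neH
  obtain ⟨A, hA⟩ : ∃ A : Set (ℂ × ℂ), A = BD δ ∩ φ ⁻¹' D := ⟨_, rfl⟩
  have oA : IsOpen A := by
    rw [hA]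
    exact hφ.continuousOn.isOpen_inter_preimage oB hD
  have sHA : HF δ ⊆ A := by
    rw [hA]
    exact fun p hp => ⟨sHB hp, hmap hp⟩
  obtain ⟨W, hW⟩ : ∃ W : Set (ℂ × ℂ), W = connectedComponentIn A q := ⟨_, rfl⟩
  have oW : IsOpen W := by
    rw [hW]
    exact oA.connectedComponentIn
  have cW : IsPreconnected W := by
    rw [hW]
    exact isPreconnected_connectedComponentIn
  have sHW : HF δ ⊆ W := by
    rw [hW]
    exact cH.subset_connectedComponentIn hq sHA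
  have sWA : W ⊆ A := by
    rw [hW]
    exact connectedComponentIn_subset A q
  have sWB : W ⊆ BD δ := fun p hp => by
    have := sWA hp
    rw [hA] at this
    exact this.1
  have sWD : ∀ p ∈ W, φ p ∈ D := fun p hp => by
    have := sWA hp
    rw [hA] at this
    exact this.2
  have hE : EqOn F (fun p => h (φ p)) W := by
    refine f_ID2 (Cn n) F (fun p => h (φ p)) W (HF δ) oW cW (hF.mono sWB) ?_ oH sHW ⟨q, hq⟩
      (fun p hp => heq p hp)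
    exact hh.hol.comp (hφ.mono sWB) (fun p hp => sWD p hp)
  have hFW : ∀ p ∈ W, F p ∈ D := by
    intro p hp
    rw [hE hp]
    exact hh.maps (sWD p hp)
  have key : ∀ p, p ∈ closure W → p ∈ BD δ → F p ∈ D → p ∈ W := by
    intro p hp hpB hFp
    have hpD : φ p ∈ D := by
      obtain ⟨x, hx, hlim⟩ := mem_closure_iff_seq_limit.1 hp
      have c1 : Tendsto (fun i => φ (x i)) atTop (𝓝 (φ p)) :=
        ((hφ.continuousOn.continuousAt (oB.mem_nhds hpB)).tendsto).comp hlim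
      have c2 : Tendsto (fun i => F (x i)) atTop (𝓝 (F p)) :=
        ((hF.continuousOn.continuousAt (oB.mem_nhds hpB)).tendsto).comp hlim
      have hL : IsCompact (insert (F p) (range fun i => F (x i))) := c2.isCompact_insert_range
      have hLD : insert (F p) (range fun i => F (x i)) ⊆ D := by
        intro y hy
        rcases hy with rfl | ⟨i, rfl⟩
        · exact hFp
        · exact hFW _ (hx i)
      have hK := hh.proper _ hLD hL
      have hmem : φ p ∈ D ∩ h ⁻¹' (insert (F p) (range fun i => F (x i))) := by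
        refine hK.isClosed.mem_of_tendsto c1 (Eventually.of_forall fun i => ?_)
        refine ⟨sWD _ (hx i), ?_⟩
        show h (φ (x i)) ∈ insert (F p) (range fun i => F (x i))
        have h1 : F (x i) = h (φ (x i)) := hE (hx i)
        rw [← h1]
        exact Or.inr ⟨i, rfl⟩
      exact hmem.1
    have hpA : p ∈ A := by
      rw [hA]
      exact ⟨hpB, hpD⟩
    have oV : IsOpen (connectedComponentIn A p) := oA.connectedComponentIn
    have hpV : p ∈ connectedComponentIn A p := mem_connectedComponentIn hpA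
    obtain ⟨x, hxV, hxW⟩ := mem_closure_iff.1 hp _ oV hpV
    have e1 := connectedComponentIn_eq hxV
    rw [hW] at hxW ⊢
    have e2 := connectedComponentIn_eq hxW
    rw [e2, ← e1]
    exact hpV
  intro z₁ w₁ hz₁ hw₁
  by_contra hno
  have hno' : (z₁, w₁) ∉ W := fun hW' => hno (sWD _ hW')
  -- the compact set of the points not in `W`
  obtain ⟨B, hB⟩ : ∃ B : Set (ℂ × ℂ), B = {p | ‖p.1‖ ≤ 1 + δ / 2 ∧ ‖p.2‖ ≤ 1 + δ / 2} := ⟨_, rfl⟩
  have hBc : IsCompact B := by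
    have : B = closedBall (0 : ℂ) (1 + δ / 2) ×ˢ closedBall (0 : ℂ) (1 + δ / 2) := by
      rw [hB]
      ext p
      simp [mem_prod]
    rw [this]
    exact (isCompact_closedBall _ _).prod (isCompact_closedBall _ _)
  have hBB : B ⊆ BD δ := by
    rw [hB]
    rintro p ⟨ha, hb⟩
    exact ⟨by linarith, by linarith⟩
  have hTc : IsCompact (B \ W) := hBc.diff oW
  have hT1 : (z₁, w₁) ∈ B \ W := by
    refine ⟨?_, hno'⟩
    rw [hB]
    exact ⟨by show ‖z₁‖ ≤ 1 + δ / 2; linarith, by show ‖w₁‖ ≤ 1 + δ / 2; linarith⟩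
  have hT : ∀ p ∈ B \ W, δ ≤ ‖p.2‖ ∧ ‖p.1‖ ≤ 1 - δ := by
    rintro p ⟨hpB, hpW⟩
    have h1 : p ∉ HF δ := fun h => hpW (sHW h)
    have h2 := hBB hpB
    constructor
    · by_contra h3
      push Not at h3
      exact h1 ⟨h2.1, h2.2, Or.inl h3⟩
    · by_contra h3
      push Not at h3
      exact h1 ⟨h2.1, h2.2, Or.inr h3⟩
  obtain ⟨ε, hε⟩ : ∃ ε : ℝ, ε = Real.log (1 + δ / 2) / 2 := ⟨_, rfl⟩
  have hl : 0 < Real.log (1 + δ / 2) := Real.log_pos (by linarith)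
  have hε0 : 0 < ε := by rw [hε]; linarith
  have hε1 : ε < Real.log (1 + δ / 2) := by rw [hε]; linarith
  have hmc : ContinuousOn (fun p : ℂ × ℂ => Real.log ‖p.2‖ - ε * ‖p.1‖ ^ 2) (B \ W) := by
    intro p hp
    have h1 : ‖p.2‖ ≠ 0 := by
      have := (hT p hp).1
      linarith
    have h2 : ContinuousAt (fun p : ℂ × ℂ => Real.log ‖p.2‖ - ε * ‖p.1‖ ^ 2) p := by
      have h3 : ContinuousAt (fun p : ℂ × ℂ => Real.log ‖p.2‖) p :=
        ContinuousAt.log (by fun_prop) h1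
      have h4 : ContinuousAt (fun p : ℂ × ℂ => ε * ‖p.1‖ ^ 2) p := by fun_prop
      exact h3.sub h4
    exact h2.continuousWithinAt
  obtain ⟨⟨z₀, w₀⟩, hq₀, hmin⟩ := hTc.exists_isMinOn ⟨_, hT1⟩ hmc
  have hmin' : ∀ p ∈ B \ W, Real.log ‖w₀‖ - ε * ‖z₀‖ ^ 2 ≤ Real.log ‖p.2‖ - ε * ‖p.1‖ ^ 2 :=
    fun p hp => hmin hp
  obtain ⟨hw₀, hz₀⟩ := hT _ hq₀
  have hw₀' : δ ≤ ‖w₀‖ := hw₀
  have hz₀' : ‖z₀‖ ≤ 1 - δ := hz₀
  have hw₀p : 0 < ‖w₀‖ := by linarith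
  have hw₀1 : ‖w₀‖ < 1 + δ / 2 := by
    have h1 := hmin' _ hT1
    have h2 : Real.log ‖w₁‖ ≤ 0 := Real.log_nonpos (norm_nonneg _) hw₁
    have h3 : 0 ≤ ε * ‖z₁‖ ^ 2 := by positivity
    have h4 : ‖z₀‖ ^ 2 ≤ 1 := pow_le_one₀ (norm_nonneg _) (by linarith)
    have h5 : ε * ‖z₀‖ ^ 2 ≤ ε := by nlinarith
    have h6 : Real.log ‖w₀‖ < Real.log (1 + δ / 2) := by
      have h1' : Real.log ‖w₀‖ - ε * ‖z₀‖ ^ 2 ≤ Real.log ‖w₁‖ - ε * ‖z₁‖ ^ 2 := h1
      linarith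
    exact (Real.log_lt_log_iff hw₀p (by linarith)).1 h6
  -- points with a smaller value are in `W`
  have hsm : ∀ p ∈ B, Real.log ‖p.2‖ - ε * ‖p.1‖ ^ 2 < Real.log ‖w₀‖ - ε * ‖z₀‖ ^ 2 → p ∈ W := by
    intro p hp hlt
    by_contra hpW
    exact absurd (hmin' p ⟨hp, hpW⟩) (not_le.2 hlt)
  have hqB : (z₀, w₀) ∈ BD δ := hBB hq₀.1
  have hqcl : (z₀, w₀) ∈ closure W := by
    have hlim : Tendsto (fun t : ℝ => ((z₀, (t : ℂ) * w₀) : ℂ × ℂ)) (𝓝[<] 1) (𝓝 (z₀, w₀)) := by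
      have h1 : Continuous (fun t : ℝ => ((z₀, (t : ℂ) * w₀) : ℂ × ℂ)) := by fun_prop
      have h2 := h1.tendsto 1
      simp only [Complex.ofReal_one, one_mul] at h2
      exact h2.mono_left nhdsWithin_le_nhds
    refine mem_closure_of_tendsto hlim ?_
    have h1 : ∀ᶠ t : ℝ in 𝓝[<] 1, 0 < t :=
      nhdsWithin_le_nhds (lt_mem_nhds (by norm_num : (0 : ℝ) < 1))
    filter_upwards [h1, self_mem_nhdsWithin] with t ht0 ht1
    have ht1' : t < 1 := ht1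
    refine hsm _ ?_ ?_
    · rw [hB]
      refine ⟨by show ‖z₀‖ ≤ _; linarith, ?_⟩
      show ‖(t : ℂ) * w₀‖ ≤ 1 + δ / 2
      rw [norm_mul, Complex.norm_real, Real.norm_eq_abs, abs_of_pos ht0]
      nlinarith
    · show Real.log ‖(t : ℂ) * w₀‖ - ε * ‖z₀‖ ^ 2 < _
      rw [norm_mul, Complex.norm_real, Real.norm_eq_abs, abs_of_pos ht0,
        Real.log_mul ht0.ne' hw₀p.ne']
      have := Real.log_neg ht0 ht1'
      linarith
  have hFq : F (z₀, w₀) ∉ D := fun h => hq₀.2 (key _ hqcl hqB h)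
  obtain ⟨U, oU, hqU, hU⟩ := (hloc _ hqB).resolve_left hFq
  -- the small Hartogs figure
  obtain ⟨Φ, hΦ⟩ : ∃ Φ : ℝ → ℂ × ℂ → ℂ × ℂ, Φ = fun (s : ℝ) (p : ℂ × ℂ) =>
      ((z₀ + (s : ℂ) * p.1, w₀ * Complex.exp (2 * (ε : ℂ) * (starRingEnd ℂ) z₀ * (s : ℂ) * p.1) *
        (1 - (s : ℂ) + (s : ℂ) * p.2)) : ℂ × ℂ) := ⟨_, rfl⟩
  have hΦc : Continuous (fun x : ℝ × (ℂ × ℂ) => Φ x.1 x.2) := by
    rw [hΦ]
    fun_prop
  obtain ⟨N, hN⟩ : ∃ N : Set (ℂ × ℂ), N = (BD δ ∩ F ⁻¹' U) ∩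
      {p | ‖p.1‖ < 1 + δ / 2 ∧ ‖p.2‖ < 1 + δ / 2} := ⟨_, rfl⟩
  have oN : IsOpen N := by
    rw [hN]
    refine (hF.continuousOn.isOpen_inter_preimage oB oU).inter ?_
    exact (isOpen_lt continuous_fst.norm continuous_const).inter
      (isOpen_lt continuous_snd.norm continuous_const)
  have hqN : (z₀, w₀) ∈ N := by
    rw [hN]
    exact ⟨⟨hqB, hqU⟩, by show ‖z₀‖ < _; linarith, hw₀1⟩
  have hK : IsCompact (closedBall (0 : ℂ × ℂ) 2) := isCompact_closedBall _ _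
  obtain ⟨u, v, ou, ov, hu, hv, huv⟩ := generalized_tube_lemma (isCompact_singleton (x := (0 : ℝ)))
    hK (oN.preimage hΦc) (by
      rintro ⟨s, p⟩ ⟨hs, -⟩
      have hs' : s = 0 := hs
      subst hs'
      show Φ 0 p ∈ N
      rw [hΦ]
      simpa using hqN)
  obtain ⟨r, hr, hru⟩ := Metric.isOpen_iff.1 ou 0 (hu rfl)
  obtain ⟨s, hs⟩ : ∃ s : ℝ, s = min (r / 2) (1 / 4) := ⟨_, rfl⟩
  have hs0 : 0 < s := by rw [hs]; positivity
  have hs1 : s ≤ 1 / 4 := by rw [hs]; exact min_le_right _ _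
  have hsr : s < r := by
    have : s ≤ r / 2 := by rw [hs]; exact min_le_left _ _
    linarith
  have hsu : s ∈ u := hru (by
    rw [mem_ball, dist_zero_right, Real.norm_eq_abs, abs_of_pos hs0]
    exact hsr)
  have hΦN : ∀ p : ℂ × ℂ, ‖p‖ ≤ 2 → Φ s p ∈ N := fun p hp =>
    huv (show ((s, p) : ℝ × (ℂ × ℂ)) ∈ u ×ˢ v from ⟨hsu, hv (mem_closedBall_zero_iff.2 hp)⟩)
  have hNB : ∀ p ∈ N, p ∈ B ∧ p ∈ BD δ ∧ F p ∈ U := by
    intro p hp
    rw [hN] at hp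
    refine ⟨?_, hp.1.1, hp.1.2⟩
    rw [hB]
    exact ⟨hp.2.1.le, hp.2.2.le⟩
  have hval : ∀ ζ ω : ℂ, ‖ζ‖ ≤ 1 → ‖ω‖ ≤ 1 → (ω = 0 ∨ ‖ζ‖ = 1) → Φ s (ζ, ω) ∈ W := by
    intro ζ ω hζ hω hcase
    have hp2 : ‖((ζ, ω) : ℂ × ℂ)‖ ≤ 2 := by
      rw [Prod.norm_def]
      exact max_le (by show ‖ζ‖ ≤ 2; linarith) (by show ‖ω‖ ≤ 2; linarith)
    refine hsm _ (hNB _ (hΦN _ hp2)).1 ?_
    have e1 : (Φ s (ζ, ω)).1 = z₀ + (s : ℂ) * ζ := by rw [hΦ]
    have e2 : (Φ s (ζ, ω)).2 = w₀ * Complex.exp (2 * ε * (starRingEnd ℂ) z₀ * s * ζ) *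
        (1 - s + s * ω) := by rw [hΦ]
    have hlow : 1 / 2 ≤ ‖(1 - s + s * ω : ℂ)‖ := by
      have h1 : ‖(1 : ℂ)‖ ≤ ‖(1 - s + s * ω : ℂ)‖ + ‖((s : ℂ) * (1 - ω))‖ := by
        have h2 : (1 : ℂ) = (1 - s + s * ω) + (s : ℂ) * (1 - ω) := by ring
        calc ‖(1 : ℂ)‖ = ‖(1 - s + s * ω : ℂ) + (s : ℂ) * (1 - ω)‖ := by rw [← h2]
          _ ≤ _ := norm_add_le _ _
      have h3 : ‖((s : ℂ) * (1 - ω))‖ ≤ 1 / 2 := by
        rw [norm_mul, Complex.norm_real, Real.norm_eq_abs, abs_of_pos hs0]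
        have h4 : ‖(1 - ω : ℂ)‖ ≤ 2 := by
          refine (norm_sub_le _ _).trans ?_
          rw [norm_one]
          linarith
        nlinarith [norm_nonneg (1 - ω : ℂ)]
      rw [norm_one] at h1
      linarith
    have hup : ‖(1 - s + s * ω : ℂ)‖ ≤ 1 := by
      have h1 : (1 - s + s * ω : ℂ) = (((1 - s : ℝ)) : ℂ) + (s : ℂ) * ω := by push_cast; ring
      rw [h1]
      refine (norm_add_le _ _).trans ?_
      rw [norm_mul, Complex.norm_real, Complex.norm_real, Real.norm_eq_abs, Real.norm_eq_abs,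
        abs_of_pos hs0, abs_of_pos (by linarith)]
      nlinarith
    have hlogle : Real.log ‖(1 - s + s * ω : ℂ)‖ ≤ 0 := Real.log_nonpos (norm_nonneg _) hup
    have hlog2 : Real.log ‖w₀ * Complex.exp (2 * ε * (starRingEnd ℂ) z₀ * s * ζ) *
        (1 - s + s * ω)‖ = Real.log ‖w₀‖ + 2 * ε * s * ((starRingEnd ℂ) z₀ * ζ).re +
          Real.log ‖(1 - s + s * ω : ℂ)‖ := by
      have h1 : (2 * ε * (starRingEnd ℂ) z₀ * s * ζ : ℂ) =
          ((2 * ε * s : ℝ) : ℂ) * ((starRingEnd ℂ) z₀ * ζ) := by push_cast; ring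
      rw [norm_mul, norm_mul, Complex.norm_exp, h1, Complex.re_ofReal_mul,
        Real.log_mul (by positivity) (by linarith), Real.log_mul hw₀p.ne' (Real.exp_pos _).ne',
        Real.log_exp]
    have hsq : ‖z₀ + (s : ℂ) * ζ‖ ^ 2 = ‖z₀‖ ^ 2 + 2 * s * ((starRingEnd ℂ) z₀ * ζ).re +
        s ^ 2 * ‖ζ‖ ^ 2 := by
      rw [← Complex.normSq_eq_norm_sq, ← Complex.normSq_eq_norm_sq, ← Complex.normSq_eq_norm_sq]
      simp only [Complex.normSq_apply, Complex.add_re, Complex.add_im, Complex.mul_re,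
        Complex.mul_im, Complex.ofReal_re, Complex.ofReal_im, Complex.conj_re, Complex.conj_im]
      ring
    show Real.log ‖(Φ s (ζ, ω)).2‖ - ε * ‖(Φ s (ζ, ω)).1‖ ^ 2 < _
    rw [e1, e2, hlog2, hsq]
    have hfin : Real.log ‖(1 - s + s * ω : ℂ)‖ - ε * (s ^ 2 * ‖ζ‖ ^ 2) < 0 := by
      rcases hcase with rfl | h1
      · have h2 : Real.log ‖(1 - s + s * 0 : ℂ)‖ < 0 := by
          have h3 : (1 - s + s * 0 : ℂ) = ((1 - s : ℝ) : ℂ) := by push_cast; ring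
          rw [h3, Complex.norm_real, Real.norm_eq_abs, abs_of_pos (by linarith)]
          exact Real.log_neg (by linarith) (by linarith)
        have h4 : 0 ≤ ε * (s ^ 2 * ‖ζ‖ ^ 2) := by positivity
        linarith
      · rw [h1]
        have h4 : 0 < ε * (s ^ 2 * 1 ^ 2) := by positivity
        linarith
    nlinarith
  have hΦd : Differentiable ℂ (Φ s) := by
    rw [hΦ]
    fun_prop
  have hfig := hU (fun p => F (Φ s p)) ⟨1, one_pos, ?_⟩ ?_ ?_ 0 1 (by simp) (by simp)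
  · have h1 : Φ s (0, 1) = (z₀, w₀) := by
      rw [hΦ]
      simp
    have h2 : F (Φ s (0, 1)) ∈ D := hfig.1
    rw [h1] at h2
    exact hFq h2
  · refine hF.comp hΦd.differentiableOn ?_
    rintro p ⟨h1, h2⟩
    refine (hNB _ (hΦN p ?_)).2.1
    rw [Prod.norm_def]
    exact max_le (by linarith) (by linarith)
  · intro ζ hζ
    have hp2 : ‖((ζ, 0) : ℂ × ℂ)‖ ≤ 2 := by
      rw [Prod.norm_def]
      exact max_le (by show ‖ζ‖ ≤ 2; linarith) (by simp)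
    exact ⟨hFW _ (hval ζ 0 hζ (by simp) (Or.inl rfl)), (hNB _ (hΦN _ hp2)).2.2⟩
  · intro ζ ω hζ hω
    have hp2 : ‖((ζ, ω) : ℂ × ℂ)‖ ≤ 2 := by
      rw [Prod.norm_def]
      exact max_le (by show ‖ζ‖ ≤ 2; linarith) (by show ‖ω‖ ≤ 2; linarith)
    exact ⟨hFW _ (hval ζ ω hζ.le hω (Or.inr hζ)), (hNB _ (hΦN _ hp2)).2.2⟩

end Pool.PHT
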