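import Pool.Agent.H73.PHT.Geo2
import Pool.Agent.H73.SMD.Final

/-!
# Limits of iterates with values in the locally pseudoconvex part of the boundary

After row ASM of board LPC (helper1), with `geo2` instead of GEO.
-/

set_option autoImplicit false

open Set Filter Topology MeasureTheory Metric

namespace Pool.PHT

open Pool.PHS Pool.LPC

theorem asm2 {n : ℕ} {D : Set (Cn n)} {f g : Cn n → Cn n} {k : ℕ → ℕ} (hDo : IsOpen D)
    (hDb : Bornology.IsBounded D) (hf : ProperSelf D f)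
    (hlim : ∀ z ∈ D, Tendsto (fun j => f^[k j] z) atTop (𝓝 (g z)))
    (hrank : ∀ z ∈ D, Module.finrank ℂ (LinearMap.range (fderiv ℂ g z).toLinearMap) ≤ 1)
    (hg : ∀ z ∈ D, g z ∈ D ∨ ∃ U, IsOpen U ∧ g z ∈ U ∧ Psc (D ∩ U)) : Psc D := by
  intro φ hφ hφ0 hφ1 z w hz hw
  obtain ⟨δ, Q, hδ, hδ1, hφd, hQ, hQD, hmap⟩ := f_FIG n D φ hDo hφ hφ0 hφ1
  obtain ⟨M, hM⟩ := hDb.exists_norm_le
  have hit : ∀ j, ProperSelf D (f^[k j]) := fun j => f_ITP n D f hf (k j)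
  obtain ⟨hgd, hgl⟩ := Pool.PHS.f_LIM n D atTop (fun j => f^[k j]) g M inferInstance hDo
    (fun j => (hit j).hol) (fun j z hz => hM _ ((hit j).maps hz)) hlim
  obtain ⟨hBO, hBc, hHO, hHc, hHne, hHB⟩ := f_CNN δ hδ hδ1
  have hδ2 : 0 < δ / 2 := by linarith
  have hδ21 : δ / 2 < 1 := by linarith
  obtain ⟨hBO2, hBc2, hHO2, hHc2, hHne2, hHB2⟩ := f_CNN (δ / 2) hδ2 hδ21
  have hHsub : HF (δ / 2) ⊆ HF δ := by
    rintro p ⟨ha, hb, hc⟩
    refine ⟨by linarith, by linarith, ?_⟩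
    rcases hc with hc | hc
    · left; linarith
    · right; linarith
  have hBsub : BD (δ / 2) ⊆ BD δ := by
    rintro p ⟨ha, hb⟩
    exact ⟨by linarith, by linarith⟩
  have hFex : ∀ j, ∃ G : ℂ × ℂ → Cn n, DifferentiableOn ℂ G (BD (δ / 2)) ∧
      EqOn G (fun p => f^[k j] (φ p)) (HF (δ / 2)) := fun j =>
    f_HEX n δ (fun p => f^[k j] (φ p)) hδ hδ1
      ((hit j).hol.comp (hφd.mono hHB) (fun p hp => hQD (hmap hp)))
  choose F hFd hFe using hFex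
  have hunifQ : TendstoUniformlyOn (fun j => f^[k j]) g atTop Q :=
    (tendstoLocallyUniformlyOn_iff_forall_isCompact hDo).1 hgl Q hQD hQ
  have hunifH : TendstoUniformlyOn F (fun p => g (φ p)) atTop (HF (δ / 2)) := by
    have h := hunifQ.comp φ
    have h' := h.mono (show HF (δ / 2) ⊆ φ ⁻¹' Q from fun p hp => hmap (hHsub hp))
    exact h'.congr (Eventually.of_forall fun j => (fun p hp => (hFe j hp).symm))
  obtain ⟨G, hGd, hGl, hGe⟩ := f_LIX n (δ / 2) F (fun p => g (φ p)) hδ2 hδ21 hFd hunifH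
  have hR1 : RankOne G (HF (δ / 2)) :=
    f_RKC n D (HF (δ / 2)) g φ G hDo hHO2 hgd (hφd.mono (hHsub.trans hHB))
      (fun p hp => hQD (hmap (hHsub hp))) (fun p hp => hGe hp) hrank
  have hR2 : RankOne G (BD (δ / 2)) := f_RKE n (δ / 2) G hδ2 hδ21 hGd hR1
  have hC := f_COR n (δ / 2) G hδ2 hδ21 hGd hR2
  have hGQ : MapsTo G (BD (δ / 2)) (g '' Q) := by
    intro p hp
    obtain ⟨q, hq, hqe⟩ := hC ⟨p, hp, rfl⟩
    rw [← hqe, hGe hq]
    exact ⟨φ q, hmap (hHsub hq), rfl⟩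
  have hgQ : IsCompact (g '' Q) := hQ.image_of_continuousOn (hgd.continuousOn.mono hQD)
  obtain ⟨O, hO⟩ : ∃ O : Set (Cn n), O = D ∪ ⋃₀ {U | IsOpen U ∧ Psc (D ∩ U)} := ⟨_, rfl⟩
  have oO : IsOpen O := by
    rw [hO]
    exact hDo.union (isOpen_sUnion fun U hU => hU.1)
  have hgQO : g '' Q ⊆ O := by
    rintro _ ⟨q, hq, rfl⟩
    rw [hO]
    rcases hg q (hQD hq) with h | ⟨U, h1, h2, h3⟩
    · exact Or.inl h
    · exact Or.inr ⟨U, ⟨h1, h3⟩, h2⟩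
  obtain ⟨ε, hε, hth⟩ := hgQ.exists_thickening_subset_open oO hgQO
  have hev := Metric.tendstoUniformlyOn_iff.1 hGl ε hε
  obtain ⟨j, hj⟩ := hev.exists
  have hFO : ∀ p ∈ BD (δ / 2), F j p ∈ D ∨ ∃ U, IsOpen U ∧ F j p ∈ U ∧ Psc (D ∩ U) := by
    intro p hp
    have h1 : F j p ∈ O := by
      apply hth
      rw [mem_thickening_iff]
      exact ⟨G p, hGQ hp, by rw [dist_comm]; exact hj p hp⟩
    rw [hO] at h1
    rcases h1 with h1 | ⟨U, ⟨h2, h3⟩, h4⟩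
    · exact Or.inl h1
    · exact Or.inr ⟨U, h2, h4, h3⟩
  exact geo2 hDo (hit j) hδ2 hδ21 (hφd.mono hBsub) (hFd j)
    (fun p hp => hQD (hmap (hHsub hp))) (fun p hp => hFe j hp) hFO z w hz hw

end Pool.PHT
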